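import Pool.Agent.K1H12.SW.Stm

set_option autoImplicit false

/-!
# Piece SOL of the project HE: Solomon's fixed point count
-/

namespace Pool.Agent.K1H21.HE

open Pool.Agent.K1H12.SW

lemma decomp {Q : Type} [Group Q] [Finite Q] (p : ℕ) (hp : p.Prime) (q : Q) :
    ∃ c u : Q, c ∈ Subgroup.zpowers q ∧ c * u = q ∧ (orderOf c).Coprime p ∧ ∃ a : ℕ, u ^ (p ^ a) = 1 := by
  have hn : orderOf q ≠ 0 := (orderOf_pos q).ne'
  obtain ⟨a, m, hm, hnm⟩ := Nat.exists_eq_pow_mul_and_not_dvd hn p hp.ne_one
  have hcop : Nat.Coprime (p ^ a) m := Nat.Coprime.pow_left a ((Nat.Prime.coprime_iff_not_dvd hp).2 hm)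
  obtain ⟨s, t, hst⟩ := (Nat.isCoprime_iff_coprime.2 hcop)
  refine ⟨q ^ (s * (p ^ a : ℕ) : ℤ), q ^ (t * m : ℤ), ⟨_, rfl⟩, ?_, ?_, a, ?_⟩
  · rw [← zpow_add, hst, zpow_one]
  · have h1 : orderOf (q ^ (s * (p ^ a : ℕ) : ℤ)) ∣ m := by
      apply orderOf_dvd_of_pow_eq_one
      have h2 : (q ^ (s * (p ^ a : ℕ) : ℤ)) ^ m = (q ^ (orderOf q)) ^ s := by
        rw [hnm, ← zpow_natCast, ← zpow_natCast, ← zpow_mul, ← zpow_mul]
        congr 1
        push_cast
        ring
      rw [h2, pow_orderOf_eq_one, one_zpow]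
    exact Nat.Coprime.coprime_dvd_left h1 ((Nat.Prime.coprime_iff_not_dvd hp).2 hm).symm
  · have h2 : (q ^ (t * m : ℤ)) ^ (p ^ a) = (q ^ (orderOf q)) ^ t := by
      rw [hnm, ← zpow_natCast, ← zpow_natCast, ← zpow_mul, ← zpow_mul]
      congr 1
      push_cast
      ring
    rw [h2, pow_orderOf_eq_one, one_zpow]

lemma exists_sub {N : Type} [Group N] [Finite N] (p : ℕ) [Fact p.Prime] (C : Subgroup N) [C.Normal] :
    ∃ H : Subgroup N, C ≤ H ∧ ¬ p ∣ H.index ∧ ∃ k : ℕ, (C.subgroupOf H).index = p ^ k := by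
  let P : Sylow p (N ⧸ C) := default
  have hsurj := QuotientGroup.mk'_surjective C
  refine ⟨(P : Subgroup (N ⧸ C)).comap (QuotientGroup.mk' C), ?_, ?_, ?_⟩
  · intro x hx
    rw [Subgroup.mem_comap, QuotientGroup.mk'_apply, (QuotientGroup.eq_one_iff x).2 hx]
    exact one_mem _
  · rw [Subgroup.index_comap_of_surjective _ hsurj]
    exact P.not_dvd_index
  · obtain ⟨k, hk⟩ := IsPGroup.iff_card.1 P.isPGroup'
    refine ⟨k, ?_⟩
    have h1 : (C.subgroupOf ((P : Subgroup (N ⧸ C)).comap (QuotientGroup.mk' C))).index =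
        C.relIndex ((P : Subgroup (N ⧸ C)).comap (QuotientGroup.mk' C)) := rfl
    have h2 := Subgroup.relIndex_ker ((P : Subgroup (N ⧸ C)).comap (QuotientGroup.mk' C))
      (QuotientGroup.mk' C)
    rw [QuotientGroup.ker_mk', Subgroup.map_comap_eq_self_of_surjective hsurj] at h2
    rw [h1, h2, ← hk]

lemma fixed_count {N : Type} [Group N] [Finite N] (p : ℕ) [Fact p.Prime] (C H : Subgroup N) [C.Normal]
    (hCH : C ≤ H) (hind : ¬ p ∣ H.index) (c u : N) (hc : c ∈ C) (a : ℕ) (hu : u ^ (p ^ a) = 1) :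
    ¬ p ∣ Nat.card (MulAction.fixedBy (N ⧸ H) (c * u)) := by
  have hpg : IsPGroup p (Subgroup.zpowers u) := by
    rintro ⟨x, j, rfl⟩
    refine ⟨a, ?_⟩
    apply Subtype.ext
    change ((u ^ j) ^ (p ^ a) : N) = 1
    rw [← zpow_natCast, ← zpow_mul, mul_comm, zpow_mul, zpow_natCast, hu, one_zpow]
  have htriv : ∀ y : N ⧸ H, c • y = y := by
    intro y
    induction y using QuotientGroup.induction_on with
    | H n =>
      have h0 : c • (n : N ⧸ H) = ((c * n : N) : N ⧸ H) := rfl
      rw [h0, QuotientGroup.eq]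
      apply hCH
      have h1 : (c * n)⁻¹ * n = n⁻¹ * c⁻¹ * (n⁻¹)⁻¹ := by group
      rw [h1]
      exact Subgroup.Normal.conj_mem inferInstance _ (C.inv_mem hc) _
  have heq : MulAction.fixedBy (N ⧸ H) (c * u) = MulAction.fixedPoints (Subgroup.zpowers u) (N ⧸ H) := by
    ext x
    rw [MulAction.mem_fixedBy, MulAction.mem_fixedPoints, mul_smul, htriv]
    constructor
    · intro h g
      have h1 : u ∈ MulAction.stabilizer N x := h
      have h2 : Subgroup.zpowers u ≤ MulAction.stabilizer N x := by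
        rw [Subgroup.zpowers_le]; exact h1
      exact h2 g.2
    · intro h
      exact h ⟨u, Subgroup.mem_zpowers u⟩
  have h3 := hpg.card_modEq_card_fixedPoints (N ⧸ H)
  rw [heq]
  intro hd
  apply hind
  rw [Subgroup.index]
  exact (Nat.modEq_zero_iff_dvd.1 (h3.trans ((Nat.modEq_zero_iff_dvd.2 hd))))

lemma Hyp_iso {H K : Type} [Group H] [Group K] (p : ℕ) (e : H ≃* K) (h : Hyp p H) : Hyp p K := by
  obtain ⟨C, hn, hc, hco, k, hk⟩ := h
  refine ⟨C.map e.toMonoidHom, hn.map e.toMonoidHom e.surjective, ?_, ?_, k, ?_⟩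
  · exact isCyclic_of_surjective (e.subgroupMap C) (e.subgroupMap C).surjective
  · have h1 : Nat.card (C.map e.toMonoidHom) = Nat.card C :=
      (Nat.card_congr (e.subgroupMap C).toEquiv).symm
    rw [h1]; exact hco
  · rw [← hk]
    exact Subgroup.index_map_of_bijective e.bijective C

/-- the main construction -/
theorem main {Q : Type} [Group Q] [Finite Q] (p : ℕ) [Fact p.Prime] (q c u : Q)
    (hcq : c ∈ Subgroup.zpowers q) (hcu : c * u = q) (hco : (orderOf c).Coprime p) (a : ℕ)
    (hu : u ^ (p ^ a) = 1) :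
    ∃ H : Subgroup Q, Hyp p H ∧ ¬ p ∣ Nat.card (MulAction.fixedBy (Q ⧸ H) q) := by
  let C : Subgroup Q := Subgroup.zpowers c
  let N : Subgroup Q := Subgroup.normalizer (C : Set Q)
  have hCN : C ≤ N := Subgroup.le_normalizer
  have hcN : c ∈ N := hCN (Subgroup.mem_zpowers c)
  have hqN : q ∈ N := by
    rw [Subgroup.mem_normalizer_iff]
    intro h
    have hcomm : ∀ h ∈ C, q * h * q⁻¹ = h := by
      intro h hh
      obtain ⟨i, rfl⟩ := hcq
      obtain ⟨j, rfl⟩ := hh
      simp only
      rw [mul_inv_eq_iff_eq_mul]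
      exact ((Commute.refl q).zpow_right i).zpow_right j
    constructor
    · intro hh
      rw [hcomm h hh]; exact hh
    · intro hh
      have h1 := hcomm _ hh
      have h2 : q * h * q⁻¹ = h := by
        have h3 : q * h * q⁻¹ = q⁻¹ * (q * (q * h * q⁻¹) * q⁻¹) * q := by group
        rw [h1] at h3
        rw [h3]; group
      rwa [h2] at hh
  have huN : u ∈ N := by
    have h1 : u = c⁻¹ * q := by rw [← hcu]; group
    rw [h1]; exact N.mul_mem (N.inv_mem hcN) hqN
  let C' : Subgroup N := C.subgroupOf N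
  have : C'.Normal := Subgroup.normal_in_normalizer
  obtain ⟨H', hCH, hind, k, hk⟩ := exists_sub p C'
  let H : Subgroup Q := H'.map N.subtype
  have hmem : ∀ x : N, (x : Q) ∈ H ↔ x ∈ H' := by
    intro x
    constructor
    · rintro ⟨y, hy, hyx⟩
      have : y = x := Subtype.ext hyx
      rwa [← this]
    · intro hx
      exact ⟨x, hx, rfl⟩
  refine ⟨H, ?_, ?_⟩
  · refine Hyp_iso p (H'.equivMapOfInjective N.subtype N.subtype_injective) ?_
    have hinj : ∃ f : (C'.subgroupOf H') →* C, Function.Injective f := by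
      refine ⟨((N.subtype.comp H'.subtype).comp (C'.subgroupOf H').subtype).codRestrict C ?_, ?_⟩
      · rintro ⟨x, hx⟩
        exact hx
      · intro x y hxy
        have h1 := congrArg Subtype.val hxy
        exact Subtype.ext (Subtype.ext (Subtype.ext h1))
    obtain ⟨f, hf⟩ := hinj
    refine ⟨C'.subgroupOf H', inferInstance, isCyclic_of_injective f hf, ?_, k, hk⟩
    refine Nat.Coprime.coprime_dvd_left (Subgroup.card_dvd_of_injective f hf) ?_
    rw [Nat.card_zpowers]
    exact hco
  · have hfc := fixed_count p C' H' hCH hind ⟨c, hcN⟩ ⟨u, huN⟩ (Subgroup.mem_subgroupOf.2 (Subgroup.mem_zpowers c)) a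
      (Subtype.ext hu)
    have hq' : (⟨c, hcN⟩ * ⟨u, huN⟩ : N) = ⟨q, hqN⟩ := Subtype.ext hcu
    rw [hq'] at hfc
    let φ : N ⧸ H' → Q ⧸ H := Quotient.map' (fun n : N => (n : Q)) (by
      intro x y hxy
      rw [QuotientGroup.leftRel_apply] at hxy ⊢
      exact (hmem _).2 hxy)
    have hφ : ∀ n : N, φ (n : N ⧸ H') = ((n : Q) : Q ⧸ H) := fun n => rfl
    have hφinj : Function.Injective φ := by
      intro x y
      induction x using QuotientGroup.induction_on with
      | H x =>
        induction y using QuotientGroup.induction_on with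
        | H y =>
          intro h
          rw [hφ, hφ, QuotientGroup.eq] at h
          rw [QuotientGroup.eq]
          exact (hmem _).1 h
    have hφeq : ∀ x : N ⧸ H', φ ((⟨q, hqN⟩ : N) • x) = q • φ x := by
      intro x
      induction x using QuotientGroup.induction_on with
      | H x => rfl
    have hcard : Nat.card (MulAction.fixedBy (N ⧸ H') (⟨q, hqN⟩ : N)) =
        Nat.card (MulAction.fixedBy (Q ⧸ H) q) := by
      refine Nat.card_congr (Equiv.ofBijective (fun x => ⟨φ x.1, ?_⟩) ⟨?_, ?_⟩)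
      · rw [MulAction.mem_fixedBy, ← hφeq]
        exact congrArg φ x.2
      · intro x y hxy
        exact Subtype.ext (hφinj (congrArg Subtype.val hxy))
      · rintro ⟨y, hy⟩
        induction y using QuotientGroup.induction_on with
        | H g =>
          have hy1 : ((q * g : Q) : Q ⧸ H) = (g : Q ⧸ H) := hy
          rw [QuotientGroup.eq] at hy1
          have hqg : g⁻¹ * q * g ∈ H := by
            have h1 := H.inv_mem hy1
            have h2 : ((q * g)⁻¹ * g)⁻¹ = g⁻¹ * q * g := by group
            rwa [h2] at h1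
          have hcg : g⁻¹ * c * g ∈ H := by
            have h1 : Subgroup.zpowers q ≤ H.comap (MulAut.conj g⁻¹).toMonoidHom := by
              rw [Subgroup.zpowers_le, Subgroup.mem_comap]
              simpa using hqg
            have h2 := h1 hcq
            rw [Subgroup.mem_comap] at h2
            simpa using h2
          obtain ⟨h', hh', hh2⟩ := hcg
          have hpk : (g⁻¹ * c * g) ^ (p ^ k) ∈ C := by
            have h1 := Subgroup.pow_index_mem (C'.subgroupOf H') ⟨h', hh'⟩
            rw [hk] at h1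
            have h2 : (h' ^ (p ^ k) : N) ∈ C' := h1
            have h3 : ((h' ^ (p ^ k) : N) : Q) ∈ C := h2
            rw [← hh2]
            simpa using h3
          have hord : orderOf (g⁻¹ * c * g) = orderOf c := by
            have h1 : g⁻¹ * c * g = MulAut.conj g⁻¹ c := by simp
            rw [h1]
            exact orderOf_injective (MulAut.conj g⁻¹).toMonoidHom (MulAut.conj g⁻¹).injective c
          have hcC : g⁻¹ * c * g ∈ C := by
            have h1 : (p ^ k).Coprime (orderOf (g⁻¹ * c * g)) := by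
              rw [hord]; exact (Nat.Coprime.pow_right k hco).symm
            obtain ⟨m, hm⟩ := exists_pow_eq_self_of_coprime h1
            rw [← hm]
            exact C.pow_mem hpk m
          have hCC : ∀ h ∈ C, g⁻¹ * h * g ∈ C := by
            intro h hh
            have h1 : Subgroup.zpowers c ≤ C.comap (MulAut.conj g⁻¹).toMonoidHom := by
              rw [Subgroup.zpowers_le, Subgroup.mem_comap]
              simpa using hcC
            have h2 := h1 hh
            rw [Subgroup.mem_comap] at h2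
            simpa using h2
          have hgN : g ∈ N := by
            rw [Subgroup.mem_normalizer_iff'']
            intro h
            refine ⟨hCC h, fun hh => ?_⟩
            have hinj : Function.Injective (fun x : C => (⟨g⁻¹ * x.1 * g, hCC x.1 x.2⟩ : C)) := by
              intro x y hxy
              have h1 : g⁻¹ * x.1 * g = g⁻¹ * y.1 * g := congrArg Subtype.val hxy
              exact Subtype.ext (mul_left_cancel (mul_right_cancel h1))
            obtain ⟨x, hx⟩ := Finite.injective_iff_surjective.1 hinj ⟨g⁻¹ * h * g, hh⟩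
            have h1 : g⁻¹ * x.1 * g = g⁻¹ * h * g := congrArg Subtype.val hx
            have h2 : x.1 = h := mul_left_cancel (mul_right_cancel h1)
            rw [← h2]
            exact x.2
          refine ⟨⟨((⟨g, hgN⟩ : N) : N ⧸ H'), ?_⟩, Subtype.ext (hφ ⟨g, hgN⟩)⟩
          rw [MulAction.mem_fixedBy]
          apply hφinj
          rw [hφeq, hφ]
          exact hy
    rwa [← hcard]

theorem t_SOL : S_SOL := by
  intro Q _ _ p hp q
  have : Fact p.Prime := ⟨hp⟩
  obtain ⟨c, u, hcq, hcu, hco, a, hu⟩ := decomp p hp q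
  obtain ⟨H, hH, hd⟩ := main p q c u hcq hcu hco a hu
  refine ⟨Q ⧸ H, inferInstance, inferInstance, fun x => ?_, hd⟩
  induction x using QuotientGroup.induction_on with
  | H g =>
    have h1 : (g : Q ⧸ H) = g • ((1 : Q) : Q ⧸ H) := by
      change _ = ((g * 1 : Q) : Q ⧸ H)
      rw [mul_one]
    refine Hyp_iso p (MulAction.stabilizerEquivStabilizer h1) ?_
    rw [MulAction.stabilizer_quotient]
    exact hH

end Pool.Agent.K1H21.HE
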